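import Mathlib
import Pool.Agent.Helper676.TL.Defs

set_option autoImplicit false

namespace Pool.Agent.Helper785.TL

open Set Metric Pool.Agent.Helper676.TL
open scoped ContDiff

noncomputable def f0 (t : ℝ) (ζ : ℂ) : ℂ := ζ + (t : ℂ) ^ 2 / cj (ζ - 1) + (t : ℂ) ^ 2 / cj (ζ + 1)

noncomputable def z0 (t : ℝ) (ζ : ℂ) : ℝ := 2 * t * Real.log ‖ζ - 1‖ + 2 * t * Real.log ‖ζ + 1‖

structure SheetEq (t : ℝ) (a b f : ℂ → ℂ) (z : ℂ → ℝ) : Prop where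
  cf : ContDiffOn ℝ ∞ f (Ut t)
  cz : ContDiffOn ℝ ∞ z (Ut t)
  dzf : ∀ ζ ∈ Ut t, dz f ζ = a ζ ^ 2
  dzbf : ∀ ζ ∈ Ut t, dzb f ζ = - cj (b ζ) ^ 2
  dzz : ∀ ζ ∈ Ut t, dz (fun w => (z w : ℂ)) ζ = a ζ * b ζ
  zero_p : ∀ ζ, ‖ζ - 1‖ = t → z ζ = 0
  zero_m : ∀ ζ, ‖ζ + 1‖ = t → z ζ = 0

/-- closeness to the model `(f0, z0)` -/
structure Close (K t : ℝ) (f : ℂ → ℂ) (z : ℂ → ℝ) : Prop where
  df : ∀ ζ ∈ Gc t, DifferentiableAt ℝ (fun w => f w - f0 t w) ζ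
  dz : ∀ ζ ∈ Gc t, DifferentiableAt ℝ (fun w => z w - z0 t w) ζ
  bf : ∀ ζ ∈ Gc t, ‖fderiv ℝ (fun w => f w - f0 t w) ζ‖ ≤ K * t
  bz : ∀ ζ ∈ Gc t, ‖fderiv ℝ (fun w => z w - z0 t w) ζ‖ ≤ K * t

theorem Gc_sub_Ut (t : ℝ) (ht : 0 < t) : Gc t ⊆ Ut t := by
  intro ζ hζ
  exact ⟨hζ.1, by linarith [hζ.2.1], by linarith [hζ.2.2]⟩

theorem isOpen_Ut (t : ℝ) : IsOpen (Ut t) := by
  have h1 : Continuous fun ζ : ℂ => ‖ζ‖ := continuous_norm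
  have h2 : Continuous fun ζ : ℂ => ‖ζ - 1‖ := by fun_prop
  have h3 : Continuous fun ζ : ℂ => ‖ζ + 1‖ := by fun_prop
  have : Ut t = {ζ : ℂ | ‖ζ‖ < 12} ∩ ({ζ : ℂ | t / 2 < ‖ζ - 1‖} ∩ {ζ : ℂ | t / 2 < ‖ζ + 1‖}) := by
    ext ζ; rfl
  rw [this]
  exact (isOpen_lt h1 continuous_const).inter
    ((isOpen_lt continuous_const h2).inter (isOpen_lt continuous_const h3))

end Pool.Agent.Helper785.TL
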