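import Pool.Agent.Helper785.TL.Defs

set_option autoImplicit false
open Set Metric Pool.Agent.Helper676.TL
open scoped ContDiff

namespace Pool.Agent.Helper785.TL
namespace J_est_pack




theorem est_pack (C t h : ℝ) (ζ A B : ℂ) (hC : 0 ≤ C) (ht : 0 < t) (ht1 : t < 1 / 100)
    (hCt : (3 * C + 12) * t ≤ 1) (hh : 1 / 2 ≤ h) (hh2 : h ≤ 2) (hζ : ‖ζ‖ < 12)
    (h1 : t ≤ ‖ζ - 1‖) (h2 : t ≤ ‖ζ + 1‖) (hA : ‖A - 1‖ ≤ C * t)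
    (hB : ‖B - (t / (ζ - 1) + t / (ζ + 1) - (t * h / 2 : ℝ) * cj ζ)‖ ≤
      C * t * (Real.sqrt t + t / ‖ζ - 1‖ + t / ‖ζ + 1‖)) :
    ‖A ^ 2 - 1‖ + ‖- cj B ^ 2 + ((t : ℂ) ^ 2 / cj (ζ - 1) ^ 2 + (t : ℂ) ^ 2 / cj (ζ + 1) ^ 2)‖ ≤
        (18 * C + 62) * t ∧
      2 * ‖A * B - ((t : ℂ) / (ζ - 1) + (t : ℂ) / (ζ + 1))‖ ≤ (18 * C + 62) * t := by
  have hp : 0 < ‖ζ - 1‖ := ht.trans_le h1
  have hq : 0 < ‖ζ + 1‖ := ht.trans_le h2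
  have hp1 : t / ‖ζ - 1‖ ≤ 1 := (div_le_one hp).2 h1
  have hq1 : t / ‖ζ + 1‖ ≤ 1 := (div_le_one hq).2 h2
  have hCt0 : 0 ≤ C * t := mul_nonneg hC ht.le
  have hsq : Real.sqrt t ≤ 1 := Real.sqrt_le_one.2 (by linarith)
  have hnt : ‖(t : ℂ)‖ = t := by rw [Complex.norm_real, Real.norm_of_nonneg ht.le]
  have hβ : ‖(t : ℂ) / (ζ - 1)‖ = t / ‖ζ - 1‖ := by rw [norm_div, hnt]
  have hγ : ‖(t : ℂ) / (ζ + 1)‖ = t / ‖ζ + 1‖ := by rw [norm_div, hnt]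
  have hb0 : ‖(t : ℂ) / (ζ - 1) + (t : ℂ) / (ζ + 1)‖ ≤ 2 := by
    refine (norm_add_le _ _).trans ?_
    rw [hβ, hγ]
    linarith
  have hthird : ‖((t * h / 2 : ℝ) : ℂ) * cj ζ‖ ≤ 12 * t := by
    rw [norm_mul, Complex.norm_real, Complex.norm_conj, Real.norm_of_nonneg (by positivity)]
    have h3 : t * h / 2 ≤ t := by nlinarith
    calc t * h / 2 * ‖ζ‖ ≤ t * 12 := mul_le_mul h3 hζ.le (norm_nonneg _) ht.le
      _ = 12 * t := by ring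
  have hdiff : ‖B - ((t : ℂ) / (ζ - 1) + (t : ℂ) / (ζ + 1))‖ ≤ (3 * C + 12) * t := by
    have h3 : B - ((t : ℂ) / (ζ - 1) + (t : ℂ) / (ζ + 1)) =
        (B - (t / (ζ - 1) + t / (ζ + 1) - (t * h / 2 : ℝ) * cj ζ)) -
          ((t * h / 2 : ℝ) : ℂ) * cj ζ := by ring
    rw [h3]
    refine (norm_sub_le _ _).trans ?_
    have h4 : C * t * (Real.sqrt t + t / ‖ζ - 1‖ + t / ‖ζ + 1‖) ≤ C * t * 3 :=
      mul_le_mul_of_nonneg_left (by linarith) hCt0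
    linarith
  have hsumpq : 2 ≤ ‖ζ - 1‖ + ‖ζ + 1‖ := by
    have h3 : ‖(ζ + 1) - (ζ - 1)‖ ≤ ‖ζ + 1‖ + ‖ζ - 1‖ := norm_sub_le _ _
    have h4 : (ζ + 1) - (ζ - 1) = 2 := by ring
    rw [h4] at h3
    have h5 : ‖(2 : ℂ)‖ = 2 := by norm_num
    rw [h5] at h3
    linarith
  have hpq : t ≤ ‖ζ - 1‖ * ‖ζ + 1‖ := by
    rcases le_or_gt 1 ‖ζ - 1‖ with h3 | h3
    · nlinarith
    · have h4 : 1 ≤ ‖ζ + 1‖ := by linarith
      nlinarith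
  have hβγ : ‖(t : ℂ) / (ζ - 1) * ((t : ℂ) / (ζ + 1))‖ ≤ t := by
    rw [norm_mul, hβ, hγ, div_mul_div_comm, div_le_iff₀ (by positivity)]
    nlinarith
  have hconj : - cj B ^ 2 + ((t : ℂ) ^ 2 / cj (ζ - 1) ^ 2 + (t : ℂ) ^ 2 / cj (ζ + 1) ^ 2) =
      - cj (B ^ 2 - (((t : ℂ) / (ζ - 1)) ^ 2 + ((t : ℂ) / (ζ + 1)) ^ 2)) := by
    have h3 : cj (B ^ 2 - (((t : ℂ) / (ζ - 1)) ^ 2 + ((t : ℂ) / (ζ + 1)) ^ 2)) =
        cj B ^ 2 - (((t : ℂ) / cj (ζ - 1)) ^ 2 + ((t : ℂ) / cj (ζ + 1)) ^ 2) := by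
      simp only [map_sub, map_add, map_pow, map_div₀, Complex.conj_ofReal, map_one]
    rw [h3, div_pow, div_pow]
    ring
  rw [hconj, norm_neg, Complex.norm_conj]
  generalize (t : ℂ) / (ζ - 1) = β at *
  generalize (t : ℂ) / (ζ + 1) = γ at *
  have hA1 : ‖A ^ 2 - 1‖ ≤ 3 * C * t := by
    have h3 : A ^ 2 - 1 = (A - 1) * (A + 1) := by ring
    rw [h3, norm_mul]
    have h4 : ‖A + 1‖ ≤ 3 := by
      have h5 : A + 1 = (A - 1) + 2 := by ring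
      rw [h5]
      refine (norm_add_le _ _).trans ?_
      have h6 : ‖(2 : ℂ)‖ = 2 := by norm_num
      rw [h6]
      nlinarith
    calc ‖A - 1‖ * ‖A + 1‖ ≤ (C * t) * 3 := mul_le_mul hA h4 (norm_nonneg _) hCt0
      _ = 3 * C * t := by ring
  have hDt : 0 ≤ (3 * C + 12) * t := by positivity
  have hB3 : ‖B‖ ≤ 3 := by
    have h3 : B = (B - (β + γ)) + (β + γ) := by ring
    calc ‖B‖ = ‖(B - (β + γ)) + (β + γ)‖ := by rw [← h3]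
      _ ≤ ‖B - (β + γ)‖ + ‖β + γ‖ := norm_add_le _ _
      _ ≤ 3 := by linarith
  have hB5 : ‖B + (β + γ)‖ ≤ 5 := by
    calc ‖B + (β + γ)‖ ≤ ‖B‖ + ‖β + γ‖ := norm_add_le _ _
      _ ≤ 5 := by linarith
  have hB2 : ‖B ^ 2 - (β ^ 2 + γ ^ 2)‖ ≤ 5 * ((3 * C + 12) * t) + 2 * t := by
    have h3 : B ^ 2 - (β ^ 2 + γ ^ 2) = (B - (β + γ)) * (B + (β + γ)) + 2 * (β * γ) := by ring
    rw [h3]
    refine (norm_add_le _ _).trans ?_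
    rw [norm_mul, norm_mul 2]
    have h4 : ‖B - (β + γ)‖ * ‖B + (β + γ)‖ ≤ ((3 * C + 12) * t) * 5 :=
      mul_le_mul hdiff hB5 (norm_nonneg _) hDt
    have h5 : ‖(2 : ℂ)‖ = 2 := by norm_num
    rw [h5]
    linarith
  constructor
  · linarith
  · have h3 : A * B - (β + γ) = (A - 1) * B + (B - (β + γ)) := by ring
    have h4 : ‖A * B - (β + γ)‖ ≤ C * t * 3 + (3 * C + 12) * t := by
      rw [h3]
      refine (norm_add_le _ _).trans ?_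
      rw [norm_mul]
      have h5 : ‖A - 1‖ * ‖B‖ ≤ C * t * 3 := mul_le_mul hA hB3 (norm_nonneg _) hCt0
      linarith
    nlinarith

end J_est_pack
export J_est_pack (est_pack)
end Pool.Agent.Helper785.TL
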