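import Pool.Agent.Helper785.TL.Defs

set_option autoImplicit false
open Set Metric Pool.Agent.Helper676.TL
open scoped ContDiff

namespace Pool.Agent.Helper785.TL
namespace J_fderiv_dz




theorem fderiv_dz (g : ℂ → ℂ) (ζ v : ℂ) : fderiv ℝ g ζ v = dz g ζ * v + dzb g ζ * cj v := by
  have hv : v = v.re • (1 : ℂ) + v.im • Complex.I := by
    rw [Complex.real_smul, Complex.real_smul, mul_one]
    exact (Complex.re_add_im v).symm
  have hL : fderiv ℝ g ζ v = (v.re : ℂ) * fderiv ℝ g ζ 1 + (v.im : ℂ) * fderiv ℝ g ζ Complex.I := by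
    conv_lhs => rw [hv]
    rw [map_add, map_smul, map_smul, Complex.real_smul, Complex.real_smul]
  have hc : cj v = (v.re : ℂ) - (v.im : ℂ) * Complex.I := by
    apply Complex.ext <;> simp [cj]
  have hv2 : v = (v.re : ℂ) + (v.im : ℂ) * Complex.I := (Complex.re_add_im v).symm
  have hI : Complex.I * Complex.I = -1 := Complex.I_mul_I
  rw [hL, hc]
  unfold dz dzb
  generalize fderiv ℝ g ζ 1 = A
  generalize fderiv ℝ g ζ Complex.I = B
  have h3 : (A - Complex.I * B) / 2 * v = (A - Complex.I * B) / 2 *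
      ((v.re : ℂ) + (v.im : ℂ) * Complex.I) := by rw [← hv2]
  rw [h3]
  linear_combination ((v.im : ℂ) * B) * hI

end J_fderiv_dz
export J_fderiv_dz (fderiv_dz)
end Pool.Agent.Helper785.TL
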