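import Pool.Agent.Helper785.TL.Defs

set_option autoImplicit false
open Set Metric Pool.Agent.Helper676.TL
open scoped ContDiff

namespace Pool.Agent.Helper785.TL
namespace J_fderiv_re




theorem fderiv_re (z : ℂ → ℝ) (ζ : ℂ) (hz : DifferentiableAt ℝ z ζ) (c : ℂ)
    (h : dz (fun w => (z w : ℂ)) ζ = c) (v : ℂ) : fderiv ℝ z ζ v = (2 * c * v).re := by
  have hd : HasFDerivAt (fun w => (z w : ℂ)) (Complex.ofRealCLM.comp (fderiv ℝ z ζ)) ζ :=
    Complex.ofRealCLM.hasFDerivAt.comp ζ hz.hasFDerivAt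
  unfold dz at h
  rw [hd.fderiv] at h
  have h1 : (Complex.ofRealCLM.comp (fderiv ℝ z ζ)) 1 = ((fderiv ℝ z ζ 1 : ℝ) : ℂ) := rfl
  have h2 : (Complex.ofRealCLM.comp (fderiv ℝ z ζ)) Complex.I =
      ((fderiv ℝ z ζ Complex.I : ℝ) : ℂ) := rfl
  rw [h1, h2] at h
  have h3 : fderiv ℝ z ζ v = v.re * fderiv ℝ z ζ 1 + v.im * fderiv ℝ z ζ Complex.I := by
    have h4 : v = v.re • (1 : ℂ) + v.im • Complex.I := by
      apply Complex.ext <;> simp
    conv_lhs => rw [h4]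
    rw [map_add, map_smul, map_smul, smul_eq_mul, smul_eq_mul]
  rw [h3]
  have h5 : 2 * c = ((fderiv ℝ z ζ 1 : ℝ) : ℂ) - Complex.I * ((fderiv ℝ z ζ Complex.I : ℝ) : ℂ) := by
    rw [← h]
    ring
  rw [h5]
  simp
  ring

end J_fderiv_re
export J_fderiv_re (fderiv_re)
end Pool.Agent.Helper785.TL
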