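import Pool.Agent.Helper785.TL.Defs

set_option autoImplicit false
open Set Metric Pool.Agent.Helper676.TL
open scoped ContDiff

namespace Pool.Agent.Helper785.TL
namespace J_hasFDerivAt_f0




theorem hfd_aux (t : ℝ) (ζ c : ℂ) (h : ζ + c ≠ 0) :
    ∃ L : ℂ →L[ℝ] ℂ, HasFDerivAt (fun w : ℂ => (t : ℂ) ^ 2 / cj (w + c)) L ζ ∧
      ∀ v, L v = - ((t : ℂ) ^ 2 / cj (ζ + c) ^ 2) * cj v := by
  have h0 : cj (ζ + c) ≠ 0 := (map_ne_zero (starRingEnd ℂ)).mpr h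
  have hd : HasDerivAt (fun u : ℂ => (t : ℂ) ^ 2 / u) (-((t : ℂ) ^ 2 / cj (ζ + c) ^ 2))
      (cj (ζ + c)) := by
    have h1 := (hasDerivAt_inv h0).const_mul ((t : ℂ) ^ 2)
    have h2 : (t : ℂ) ^ 2 * -(cj (ζ + c) ^ 2)⁻¹ = -((t : ℂ) ^ 2 / cj (ζ + c) ^ 2) := by
      rw [div_eq_mul_inv]; ring
    rw [h2] at h1
    exact h1
  have hg := hd.hasFDerivAt.restrictScalars ℝ
  have hf1 : HasFDerivAt (fun w : ℂ => w + c) (ContinuousLinearMap.id ℝ ℂ) ζ :=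
    (hasFDerivAt_id ζ).add_const c
  have hf2 : HasFDerivAt (fun w : ℂ => cj (w + c))
      ((Complex.conjCLE : ℂ →L[ℝ] ℂ).comp (ContinuousLinearMap.id ℝ ℂ)) ζ := by
    have h3 : HasFDerivAt (fun w : ℂ => cj w) (Complex.conjCLE : ℂ →L[ℝ] ℂ) (ζ + c) :=
      Complex.conjCLE.hasFDerivAt
    exact HasFDerivAt.comp (g := fun w : ℂ => cj w) (f := fun w : ℂ => w + c) ζ h3 hf1
  refine ⟨_, HasFDerivAt.comp (g := fun u : ℂ => (t : ℂ) ^ 2 / u)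
    (f := fun w : ℂ => cj (w + c)) ζ hg hf2, ?_⟩
  intro v
  simp
  ring

theorem hasFDerivAt_f0 (t : ℝ) (ζ : ℂ) (h1 : ζ ≠ 1) (h2 : ζ ≠ -1) :
    ∃ L : ℂ →L[ℝ] ℂ, HasFDerivAt (f0 t) L ζ ∧
      ∀ v, L v = v - ((t : ℂ) ^ 2 / cj (ζ - 1) ^ 2 + (t : ℂ) ^ 2 / cj (ζ + 1) ^ 2) * cj v := by
  obtain ⟨L1, hL1, e1⟩ := hfd_aux t ζ (-1) (by
    intro h
    apply h1
    linear_combination h)
  obtain ⟨L2, hL2, e2⟩ := hfd_aux t ζ 1 (by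
    intro h
    apply h2
    linear_combination h)
  refine ⟨ContinuousLinearMap.id ℝ ℂ + L1 + L2, ?_, ?_⟩
  · have h3 := ((hasFDerivAt_id (𝕜 := ℝ) ζ).add hL1).add hL2
    refine h3.congr_of_eventuallyEq (Filter.Eventually.of_forall (fun w => ?_))
    show f0 t w = w + (t : ℂ) ^ 2 / cj (w + -1) + (t : ℂ) ^ 2 / cj (w + 1)
    unfold f0
    rw [sub_eq_add_neg]
  · intro v
    have h4 : (ContinuousLinearMap.id ℝ ℂ + L1 + L2) v = v + L1 v + L2 v := rfl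
    rw [h4, e1, e2, sub_eq_add_neg ζ 1]
    ring

end J_hasFDerivAt_f0
export J_hasFDerivAt_f0 (hasFDerivAt_f0)
end Pool.Agent.Helper785.TL
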