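import Pool.Agent.Helper785.TL.Defs

set_option autoImplicit false
open Set Metric Pool.Agent.Helper676.TL
open scoped ContDiff

namespace Pool.Agent.Helper785.TL
namespace J_hasFDerivAt_z0




theorem z0_aux_re (t : ℝ) (w v : ℂ) :
    t * ((‖w‖ ^ 2)⁻¹ * (2 * inner ℝ w v)) = (2 * ((t : ℂ) / w) * v).re := by
  rw [Complex.inner, div_eq_mul_inv, Complex.inv_def, ← Complex.normSq_eq_norm_sq]
  simp only [Complex.mul_re, Complex.mul_im, Complex.conj_re, Complex.conj_im, Complex.ofReal_re,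
    Complex.ofReal_im]
  norm_num
  ring

theorem z0_aux_deriv (c ζ : ℂ) (h : ζ - c ≠ 0) :
    ∃ L : ℂ →L[ℝ] ℝ, HasFDerivAt (fun w : ℂ => Real.log (‖w - c‖ ^ 2)) L ζ ∧
      ∀ v, L v = (‖ζ - c‖ ^ 2)⁻¹ * (2 * inner ℝ (ζ - c) v) := by
  have h1 : HasFDerivAt (fun w : ℂ => w - c) (ContinuousLinearMap.id ℝ ℂ) ζ :=
    (hasFDerivAt_id ζ).sub_const c
  have h2 := (h1.norm_sq).log (pow_ne_zero 2 (norm_ne_zero_iff.mpr h))
  refine ⟨_, h2, fun v => ?_⟩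
  show (‖ζ - c‖ ^ 2)⁻¹ * (2 • (inner ℝ (ζ - c) v : ℝ)) = _
  rw [nsmul_eq_mul]
  norm_num

theorem hasFDerivAt_z0 (t : ℝ) (ζ : ℂ) (h1 : ζ ≠ 1) (h2 : ζ ≠ -1) :
    ∃ L : ℂ →L[ℝ] ℝ, HasFDerivAt (z0 t) L ζ ∧
      ∀ v, L v = (2 * ((t : ℂ) / (ζ - 1) + (t : ℂ) / (ζ + 1)) * v).re := by
  obtain ⟨L1, hL1, e1⟩ := z0_aux_deriv 1 ζ (sub_ne_zero.mpr h1)
  obtain ⟨L2, hL2, e2⟩ := z0_aux_deriv (-1) ζ (sub_ne_zero.mpr h2)
  have hz : z0 t = fun w : ℂ => t * Real.log (‖w - 1‖ ^ 2) + t * Real.log (‖w - (-1)‖ ^ 2) := by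
    funext w
    unfold z0
    rw [Real.log_pow, Real.log_pow, sub_neg_eq_add]
    push_cast
    ring
  refine ⟨t • L1 + t • L2, ?_, fun v => ?_⟩
  · rw [hz]
    exact (hL1.const_mul t).add (hL2.const_mul t)
  · show t * L1 v + t * L2 v = _
    rw [e1, e2, z0_aux_re, z0_aux_re, sub_neg_eq_add, ← Complex.add_re]
    congr 1
    ring

end J_hasFDerivAt_z0
export J_hasFDerivAt_z0 (hasFDerivAt_z0)
end Pool.Agent.Helper785.TL
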