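import Pool.Agent.Helper785.TL.Defs
import Pool.Agent.Helper785.TL.P_fderiv_dz
import Pool.Agent.Helper785.TL.P_fderiv_re
import Pool.Agent.Helper785.TL.P_hasFDerivAt_f0
import Pool.Agent.Helper785.TL.P_hasFDerivAt_z0
import Pool.Agent.Helper785.TL.P_est_pack

set_option autoImplicit false
open Set Metric Pool.Agent.Helper676.TL
open scoped ContDiff

namespace Pool.Agent.Helper785.TL
namespace J_close_of




















theorem close_of (C t h : ℝ) (a b f : ℂ → ℂ) (z : ℂ → ℝ) (hC : 0 ≤ C) (ht1 : t < 1 / 100)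
    (hCt : (3 * C + 12) * t ≤ 1) (hF : Fields C t h a b) (hS : SheetEq t a b f z) :
    Close (18 * C + 62) t f z := by
  have ht := hF.ht
  have hne : ∀ ζ ∈ Gc t, ζ ≠ 1 ∧ ζ ≠ -1 := by
    intro ζ hζ
    constructor
    · rintro rfl
      have := hζ.2.1
      rw [sub_self, norm_zero] at this
      linarith
    · rintro rfl
      have := hζ.2.2
      rw [neg_add_cancel, norm_zero] at this
      linarith
  have hfd : ∀ ζ ∈ Gc t, DifferentiableAt ℝ f ζ := by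
    intro ζ hζ
    exact ((hS.cf.contDiffAt ((isOpen_Ut t).mem_nhds (Gc_sub_Ut t ht hζ))).differentiableAt
      (by simp))
  have hzd : ∀ ζ ∈ Gc t, DifferentiableAt ℝ z ζ := by
    intro ζ hζ
    exact ((hS.cz.contDiffAt ((isOpen_Ut t).mem_nhds (Gc_sub_Ut t ht hζ))).differentiableAt
      (by simp))
  have hK : 0 ≤ (18 * C + 62) * t := by positivity
  refine ⟨fun ζ hζ => ?_, fun ζ hζ => ?_, fun ζ hζ => ?_, fun ζ hζ => ?_⟩
  · obtain ⟨L, hL, -⟩ := hasFDerivAt_f0 t ζ (hne ζ hζ).1 (hne ζ hζ).2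
    exact (hfd ζ hζ).sub hL.differentiableAt
  · obtain ⟨L, hL, -⟩ := hasFDerivAt_z0 t ζ (hne ζ hζ).1 (hne ζ hζ).2
    exact (hzd ζ hζ).sub hL.differentiableAt
  · obtain ⟨L, hL, hLv⟩ := hasFDerivAt_f0 t ζ (hne ζ hζ).1 (hne ζ hζ).2
    have he := (est_pack C t h ζ (a ζ) (b ζ) hC ht ht1 hCt hF.h1 hF.h2 hζ.1 hζ.2.1 hζ.2.2
      (hF.est_a ζ hζ) (hF.est_b ζ hζ)).1
    have h1 : fderiv ℝ (fun w => f w - f0 t w) ζ = fderiv ℝ f ζ - L :=
      ((hfd ζ hζ).hasFDerivAt.sub hL).fderiv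
    rw [h1]
    apply ContinuousLinearMap.opNorm_le_bound _ hK
    intro v
    have hU := Gc_sub_Ut t ht hζ
    have h2 : (fderiv ℝ f ζ - L) v = (a ζ ^ 2 - 1) * v + (- cj (b ζ) ^ 2 +
        ((t : ℂ) ^ 2 / cj (ζ - 1) ^ 2 + (t : ℂ) ^ 2 / cj (ζ + 1) ^ 2)) * cj v := by
      have h3 : (fderiv ℝ f ζ - L) v = fderiv ℝ f ζ v - L v := rfl
      rw [h3, fderiv_dz, hLv, hS.dzf ζ hU, hS.dzbf ζ hU]
      ring
    rw [h2]
    refine (norm_add_le _ _).trans ?_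
    rw [norm_mul, norm_mul, RCLike.norm_conj, ← add_mul]
    exact mul_le_mul_of_nonneg_right he (norm_nonneg _)
  · obtain ⟨L, hL, hLv⟩ := hasFDerivAt_z0 t ζ (hne ζ hζ).1 (hne ζ hζ).2
    have he := (est_pack C t h ζ (a ζ) (b ζ) hC ht ht1 hCt hF.h1 hF.h2 hζ.1 hζ.2.1 hζ.2.2
      (hF.est_a ζ hζ) (hF.est_b ζ hζ)).2
    have h1 : fderiv ℝ (fun w => z w - z0 t w) ζ = fderiv ℝ z ζ - L :=
      ((hzd ζ hζ).hasFDerivAt.sub hL).fderiv
    rw [h1]
    apply ContinuousLinearMap.opNorm_le_bound _ hK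
    intro v
    have hU := Gc_sub_Ut t ht hζ
    have h2 : (fderiv ℝ z ζ - L) v =
        (2 * (a ζ * b ζ - ((t : ℂ) / (ζ - 1) + (t : ℂ) / (ζ + 1))) * v).re := by
      have h3 : (fderiv ℝ z ζ - L) v = fderiv ℝ z ζ v - L v := rfl
      rw [h3, fderiv_re z ζ (hzd ζ hζ) _ (hS.dzz ζ hU), hLv, ← Complex.sub_re]
      congr 1
      ring
    rw [h2, Real.norm_eq_abs]
    refine (Complex.abs_re_le_norm _).trans ?_
    rw [norm_mul, norm_mul, Complex.norm_two]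
    exact mul_le_mul_of_nonneg_right he (norm_nonneg _)

end J_close_of
export J_close_of (close_of)
end Pool.Agent.Helper785.TL
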