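import Pool.Agent.Helper785.TL.Defs

set_option autoImplicit false
open Set Metric Pool.Agent.Helper676.TL
open scoped ContDiff

namespace Pool.Agent.Helper785.TL
namespace J_lb0


theorem lb0_log1 (t x y : ℝ) (ht : 0 < t) (hx : 0 < x) (hxy : x ≤ y) (hy : y ≤ 4 * t) :
    1 / 4 * (x - y) ^ 2 ≤ (2 * t * (Real.log x - Real.log y)) ^ 2 := by
  have hy0 : 0 < y := lt_of_lt_of_le hx hxy
  have h1 : Real.log (x / y) ≤ x / y - 1 := Real.log_le_sub_one_of_pos (div_pos hx hy0)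
  rw [Real.log_div hx.ne' hy0.ne'] at h1
  have h2 : (y - x) / (4 * t) ≤ Real.log y - Real.log x := by
    have h3 : (y - x) / (4 * t) ≤ (y - x) / y :=
      div_le_div_of_nonneg_left (by linarith) hy0 hy
    have h4 : (y - x) / y = 1 - x / y := by field_simp
    linarith
  have h5 : (y - x) / 2 ≤ 2 * t * (Real.log y - Real.log x) := by
    have h6 : (y - x) / 2 = 2 * t * ((y - x) / (4 * t)) := by field_simp; ring
    rw [h6]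
    exact mul_le_mul_of_nonneg_left h2 (by linarith)
  have h7 : ((y - x) / 2) ^ 2 ≤ (2 * t * (Real.log y - Real.log x)) ^ 2 :=
    pow_le_pow_left₀ (by linarith) h5 2
  have h8 : (2 * t * (Real.log x - Real.log y)) ^ 2 = (2 * t * (Real.log y - Real.log x)) ^ 2 := by
    ring
  rw [h8]
  have h9 : 1 / 4 * (x - y) ^ 2 = ((y - x) / 2) ^ 2 := by ring
  rw [h9]
  exact h7

theorem lb0_log (t x y : ℝ) (ht : 0 < t) (hx : 0 < x) (hy : 0 < y) (hx4 : x ≤ 4 * t)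
    (hy4 : y ≤ 4 * t) :
    1 / 4 * (x - y) ^ 2 ≤ (2 * t * (Real.log x - Real.log y)) ^ 2 := by
  rcases le_total x y with h | h
  · exact lb0_log1 t x y ht hx h hy4
  · have := lb0_log1 t y x ht hy h hx4
    calc 1 / 4 * (x - y) ^ 2 = 1 / 4 * (y - x) ^ 2 := by ring
      _ ≤ _ := this
      _ = _ := by ring

theorem lb0_k (t : ℝ) (w : ℂ) (hw : w ≠ 0) :
    w + (t : ℂ) ^ 2 / cj w = ((1 + t ^ 2 / ‖w‖ ^ 2 : ℝ) : ℂ) * w := by
  have h1 : cj w ≠ 0 := by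
    rw [cj, Ne, map_eq_zero]
    exact hw
  have h2 : w * cj w = ((‖w‖ ^ 2 : ℝ) : ℂ) := by
    rw [cj, Complex.mul_conj, Complex.normSq_eq_norm_sq]
  have h3 : ((‖w‖ ^ 2 : ℝ) : ℂ) ≠ 0 := by
    rw [← h2]
    exact mul_ne_zero hw h1
  have h4 : (t : ℂ) ^ 2 / cj w = (t : ℂ) ^ 2 / ((‖w‖ ^ 2 : ℝ) : ℂ) * w := by
    rw [div_mul_eq_mul_div, div_eq_div_iff h1 h3, ← h2]
    ring
  rw [h4]
  push_cast
  ring

theorem lb0_alg (k k' X Y X' Y' R R' : ℝ) (hk : 1 ≤ k) (hk' : 1 ≤ k') (hR : 0 ≤ R) (hR' : 0 ≤ R')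
    (h1 : R ^ 2 = X ^ 2 + Y ^ 2) (h2 : R' ^ 2 = X' ^ 2 + Y' ^ 2) :
    (X - X') ^ 2 + (Y - Y') ^ 2 - (R - R') ^ 2 ≤ (k * X - k' * X') ^ 2 + (k * Y - k' * Y') ^ 2 ∧
    (R - R') ^ 2 ≤ (X - X') ^ 2 + (Y - Y') ^ 2 := by
  have hD : X * X' + Y * Y' ≤ R * R' := by
    apply le_of_abs_le
    apply abs_le_of_sq_le_sq _ (mul_nonneg hR hR')
    rw [mul_pow, h1, h2]
    nlinarith [sq_nonneg (X * Y' - Y * X')]
  have hkk : 1 ≤ k * k' := by nlinarith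
  have h3 : (k * X - k' * X') ^ 2 + (k * Y - k' * Y') ^ 2 =
      (k * R - k' * R') ^ 2 + 2 * (k * k') * (R * R' - (X * X' + Y * Y')) := by
    have : (k * R - k' * R') ^ 2 = k ^ 2 * R ^ 2 + k' ^ 2 * R' ^ 2 - 2 * (k * k') * (R * R') := by
      ring
    rw [this, h1, h2]
    ring
  have h4 : (X - X') ^ 2 + (Y - Y') ^ 2 - (R - R') ^ 2 = 2 * (R * R' - (X * X' + Y * Y')) := by
    have : (R - R') ^ 2 = R ^ 2 + R' ^ 2 - 2 * (R * R') := by ring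
    rw [this, h1, h2]
    ring
  constructor
  · rw [h3, h4]
    have h5 : 0 ≤ (k * k' - 1) * (R * R' - (X * X' + Y * Y')) :=
      mul_nonneg (by linarith) (by linarith)
    nlinarith [sq_nonneg (k * R - k' * R')]
  · linarith



theorem lb0 (t : ℝ) (w w' : ℂ) (ht : 0 < t) (h1 : t ≤ ‖w‖) (h1' : t ≤ ‖w'‖)
    (h2 : ‖w‖ ≤ 4 * t) (h2' : ‖w'‖ ≤ 4 * t) :
    1 / 4 * ‖w - w'‖ ^ 2 ≤ ‖(w + (t : ℂ) ^ 2 / cj w) - (w' + (t : ℂ) ^ 2 / cj w')‖ ^ 2 +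
      (2 * t * (Real.log ‖w‖ - Real.log ‖w'‖)) ^ 2 := by
  have hw : w ≠ 0 := by
    intro h
    rw [h, norm_zero] at h1
    linarith
  have hw' : w' ≠ 0 := by
    intro h
    rw [h, norm_zero] at h1'
    linarith
  have hR : 0 < ‖w‖ := norm_pos_iff.mpr hw
  have hR' : 0 < ‖w'‖ := norm_pos_iff.mpr hw'
  have hlog := lb0_log t ‖w‖ ‖w'‖ ht hR hR' h2 h2'
  rw [lb0_k t w hw, lb0_k t w' hw']
  set k : ℝ := 1 + t ^ 2 / ‖w‖ ^ 2 with hk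
  set k' : ℝ := 1 + t ^ 2 / ‖w'‖ ^ 2 with hk'
  have hk1 : 1 ≤ k := by
    rw [hk]
    have : 0 ≤ t ^ 2 / ‖w‖ ^ 2 := by positivity
    linarith
  have hk1' : 1 ≤ k' := by
    rw [hk']
    have : 0 ≤ t ^ 2 / ‖w'‖ ^ 2 := by positivity
    linarith
  have e0 : ∀ z : ℂ, ‖z‖ ^ 2 = z.re ^ 2 + z.im ^ 2 := by
    intro z
    rw [← Complex.normSq_eq_norm_sq, Complex.normSq_apply]
    ring
  have e1 : ‖w - w'‖ ^ 2 = (w.re - w'.re) ^ 2 + (w.im - w'.im) ^ 2 := by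
    rw [e0, Complex.sub_re, Complex.sub_im]
  have e2 : ‖(k : ℂ) * w - (k' : ℂ) * w'‖ ^ 2 =
      (k * w.re - k' * w'.re) ^ 2 + (k * w.im - k' * w'.im) ^ 2 := by
    rw [e0]
    simp
  obtain ⟨a1, a2⟩ := lb0_alg k k' w.re w.im w'.re w'.im ‖w‖ ‖w'‖ hk1 hk1' hR.le hR'.le (e0 w) (e0 w')
  rw [e1, e2]
  nlinarith

end J_lb0
export J_lb0 (lb0)
end Pool.Agent.Helper785.TL
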