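import Pool.Agent.Helper785.TL.Defs
import Pool.Agent.Helper785.TL.P_lb0

set_option autoImplicit false
open Set Metric Pool.Agent.Helper676.TL
open scoped ContDiff

namespace Pool.Agent.Helper785.TL
namespace J_lb_model








theorem lbm_log0 {x y : ℝ} (hy : 1 ≤ y) (hxy : y ≤ x) : Real.log x - Real.log y ≤ x - y := by
  have hy0 : 0 < y := by linarith
  have hx0 : 0 < x := by linarith
  rw [← Real.log_div hx0.ne' hy0.ne']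
  have h1 := Real.log_le_sub_one_of_pos (div_pos hx0 hy0)
  have h2 : x / y - 1 = (x - y) / y := by field_simp
  have h3 : (x - y) / y ≤ x - y := div_le_self (by linarith) hy
  linarith

theorem lbm_log {x y : ℝ} (hx : 1 ≤ x) (hy : 1 ≤ y) : |Real.log x - Real.log y| ≤ |x - y| := by
  rcases le_total y x with h | h
  · have h1 := lbm_log0 hy h
    have h2 := Real.log_le_log (by linarith) h
    rw [abs_of_nonneg (by linarith), abs_of_nonneg (by linarith)]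
    exact h1
  · have h1 := lbm_log0 hx h
    have h2 := Real.log_le_log (by linarith) h
    rw [abs_sub_comm, abs_sub_comm x y, abs_of_nonneg (by linarith), abs_of_nonneg (by linarith)]
    exact h1

theorem lbm_frac (t : ℝ) (w w' : ℂ) (hw : w ≠ 0) (hw' : w' ≠ 0) :
    ‖(t : ℂ) ^ 2 / cj w - (t : ℂ) ^ 2 / cj w'‖ = t ^ 2 * ‖w - w'‖ / (‖w‖ * ‖w'‖) := by
  have h1 : cj w ≠ 0 := (map_ne_zero _).2 hw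
  have h2 : cj w' ≠ 0 := (map_ne_zero _).2 hw'
  have h3 : (t : ℂ) ^ 2 / cj w - (t : ℂ) ^ 2 / cj w' =
      (t : ℂ) ^ 2 * cj (w' - w) / (cj w * cj w') := by
    have h0 : cj (w' - w) = cj w' - cj w := map_sub (starRingEnd ℂ) w' w
    rw [h0]
    field_simp
  rw [h3, norm_div, norm_mul, norm_mul, Complex.norm_conj, Complex.norm_conj, Complex.norm_conj,
    norm_pow, Complex.norm_real, Real.norm_eq_abs, sq_abs, norm_sub_rev]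

theorem lbm_near (t : ℝ) (w w' a a' : ℂ) (ht : 0 < t) (ht1 : t < 1 / 100) (h1 : t ≤ ‖w‖)
    (h1' : t ≤ ‖w'‖) (hprod : ‖w‖ * ‖w'‖ < 4 * t ^ 2) (ha : 1 ≤ ‖a‖) (ha' : 1 ≤ ‖a'‖)
    (haa : a - a' = w - w') :
    1 / 8 * ‖w - w'‖ ≤ ‖(w - w') + ((t : ℂ) ^ 2 / cj w - (t : ℂ) ^ 2 / cj w') +
      ((t : ℂ) ^ 2 / cj a - (t : ℂ) ^ 2 / cj a')‖ +
      |2 * t * (Real.log ‖w‖ - Real.log ‖w'‖) + 2 * t * (Real.log ‖a‖ - Real.log ‖a'‖)| := by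
  have h2 : ‖w‖ ≤ 4 * t := by
    by_contra h
    push Not at h
    nlinarith
  have h2' : ‖w'‖ ≤ 4 * t := by
    by_contra h
    push Not at h
    nlinarith
  have hlb := lb0 t w w' ht h1 h1' h2 h2'
  obtain ⟨X, hX⟩ : ∃ X, X = (w + (t : ℂ) ^ 2 / cj w) - (w' + (t : ℂ) ^ 2 / cj w') := ⟨_, rfl⟩
  obtain ⟨Y, hY⟩ : ∃ Y, Y = 2 * t * (Real.log ‖w‖ - Real.log ‖w'‖) := ⟨_, rfl⟩
  rw [← hX, ← hY] at hlb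
  have ha0 : a ≠ 0 := by rintro rfl; rw [norm_zero] at ha; linarith
  have ha0' : a' ≠ 0 := by rintro rfl; rw [norm_zero] at ha'; linarith
  have hfr : ‖(t : ℂ) ^ 2 / cj a - (t : ℂ) ^ 2 / cj a'‖ ≤ t ^ 2 * ‖w - w'‖ := by
    rw [lbm_frac t a a' ha0 ha0', haa]
    have h3 : 1 ≤ ‖a‖ * ‖a'‖ := one_le_mul_of_one_le_of_one_le ha ha'
    exact div_le_self (by positivity) h3
  have hlg : |2 * t * (Real.log ‖a‖ - Real.log ‖a'‖)| ≤ 2 * t * ‖w - w'‖ := by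
    rw [abs_mul, abs_of_pos (by linarith : (0 : ℝ) < 2 * t)]
    refine mul_le_mul_of_nonneg_left ?_ (by linarith)
    refine (lbm_log ha ha').trans ?_
    rw [← haa]
    exact abs_norm_sub_norm_le a a'
  have hsplit : (w - w') + ((t : ℂ) ^ 2 / cj w - (t : ℂ) ^ 2 / cj w') +
      ((t : ℂ) ^ 2 / cj a - (t : ℂ) ^ 2 / cj a') = X +
      ((t : ℂ) ^ 2 / cj a - (t : ℂ) ^ 2 / cj a') := by rw [hX]; ring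
  rw [hsplit, ← hY]
  have h4 : ‖X‖ - ‖(t : ℂ) ^ 2 / cj a - (t : ℂ) ^ 2 / cj a'‖ ≤
      ‖X + ((t : ℂ) ^ 2 / cj a - (t : ℂ) ^ 2 / cj a')‖ := by
    have := norm_sub_norm_le X (-((t : ℂ) ^ 2 / cj a - (t : ℂ) ^ 2 / cj a'))
    rwa [norm_neg, sub_neg_eq_add] at this
  have h5 : |Y| - |2 * t * (Real.log ‖a‖ - Real.log ‖a'‖)| ≤
      |Y + 2 * t * (Real.log ‖a‖ - Real.log ‖a'‖)| := by
    have := abs_sub_abs_le_abs_sub Y (-(2 * t * (Real.log ‖a‖ - Real.log ‖a'‖)))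
    rwa [abs_neg, sub_neg_eq_add] at this
  have h6 : 1 / 2 * ‖w - w'‖ ≤ ‖X‖ + |Y| := by
    have h7 : (1 / 2 * ‖w - w'‖) ^ 2 ≤ (‖X‖ + |Y|) ^ 2 := by
      have h8 : Y ^ 2 = |Y| ^ 2 := (sq_abs Y).symm
      rw [h8] at hlb
      nlinarith [norm_nonneg X, abs_nonneg Y, mul_nonneg (norm_nonneg X) (abs_nonneg Y)]
    exact le_of_sq_le_sq h7 (by positivity)
  have hδ := norm_nonneg (w - w')
  have h9 : t ^ 2 * ‖w - w'‖ ≤ 1 / 100 * ‖w - w'‖ :=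
    mul_le_mul_of_nonneg_right (by nlinarith) hδ
  have h10 : 2 * t * ‖w - w'‖ ≤ 1 / 50 * ‖w - w'‖ :=
    mul_le_mul_of_nonneg_right (by linarith) hδ
  linarith

theorem lb_model (t : ℝ) (ζ₁ ζ₂ : ℂ) (ht : 0 < t) (ht1 : t < 1 / 100) (h1 : ζ₁ ∈ Gc t)
    (h2 : ζ₂ ∈ Gc t) :
    1 / 8 * ‖ζ₁ - ζ₂‖ ≤ ‖f0 t ζ₁ - f0 t ζ₂‖ + |z0 t ζ₁ - z0 t ζ₂| := by
  obtain ⟨-, p1, q1⟩ := h1
  obtain ⟨-, p2, q2⟩ := h2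
  have hfar : ∀ a b : ℂ, ‖a‖ ≤ 4 * t → (b = a + 2 ∨ b = a - 2) → 1 ≤ ‖b‖ := by
    intro a b ha hb
    have h2n : ‖(2 : ℂ)‖ = 2 := by norm_num
    rcases hb with hb | hb
    · have h3 := norm_sub_norm_le (2 : ℂ) (-a)
      rw [norm_neg, h2n, sub_neg_eq_add, add_comm, ← hb] at h3
      linarith
    · have h3 := norm_sub_norm_le (2 : ℂ) a
      rw [h2n, norm_sub_rev, ← hb] at h3
      linarith
  by_cases hA1 : ‖ζ₁ - 1‖ * ‖ζ₂ - 1‖ < 4 * t ^ 2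
  · have e1 : ‖ζ₁ - 1‖ ≤ 4 * t := by
      by_contra h
      push Not at h
      nlinarith
    have e2 : ‖ζ₂ - 1‖ ≤ 4 * t := by
      by_contra h
      push Not at h
      nlinarith
    have h3 := lbm_near t (ζ₁ - 1) (ζ₂ - 1) (ζ₁ + 1) (ζ₂ + 1) ht ht1 p1 p2 hA1
      (hfar (ζ₁ - 1) (ζ₁ + 1) e1 (Or.inl (by ring)))
      (hfar (ζ₂ - 1) (ζ₂ + 1) e2 (Or.inl (by ring))) (by ring)
    have h4 : (ζ₁ - 1) - (ζ₂ - 1) = ζ₁ - ζ₂ := by ring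
    rw [h4] at h3
    have h5 : f0 t ζ₁ - f0 t ζ₂ = (ζ₁ - ζ₂) +
        ((t : ℂ) ^ 2 / cj (ζ₁ - 1) - (t : ℂ) ^ 2 / cj (ζ₂ - 1)) +
        ((t : ℂ) ^ 2 / cj (ζ₁ + 1) - (t : ℂ) ^ 2 / cj (ζ₂ + 1)) := by
      unfold f0; ring
    have h6 : z0 t ζ₁ - z0 t ζ₂ = 2 * t * (Real.log ‖ζ₁ - 1‖ - Real.log ‖ζ₂ - 1‖) +
        2 * t * (Real.log ‖ζ₁ + 1‖ - Real.log ‖ζ₂ + 1‖) := by
      unfold z0; ring
    rw [h5, h6]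
    exact h3
  by_cases hA2 : ‖ζ₁ + 1‖ * ‖ζ₂ + 1‖ < 4 * t ^ 2
  · have e1 : ‖ζ₁ + 1‖ ≤ 4 * t := by
      by_contra h
      push Not at h
      nlinarith
    have e2 : ‖ζ₂ + 1‖ ≤ 4 * t := by
      by_contra h
      push Not at h
      nlinarith
    have h3 := lbm_near t (ζ₁ + 1) (ζ₂ + 1) (ζ₁ - 1) (ζ₂ - 1) ht ht1 q1 q2 hA2
      (hfar (ζ₁ + 1) (ζ₁ - 1) e1 (Or.inr (by ring)))
      (hfar (ζ₂ + 1) (ζ₂ - 1) e2 (Or.inr (by ring))) (by ring)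
    have h4 : (ζ₁ + 1) - (ζ₂ + 1) = ζ₁ - ζ₂ := by ring
    rw [h4] at h3
    have h5 : f0 t ζ₁ - f0 t ζ₂ = (ζ₁ - ζ₂) +
        ((t : ℂ) ^ 2 / cj (ζ₁ + 1) - (t : ℂ) ^ 2 / cj (ζ₂ + 1)) +
        ((t : ℂ) ^ 2 / cj (ζ₁ - 1) - (t : ℂ) ^ 2 / cj (ζ₂ - 1)) := by
      unfold f0; ring
    have h6 : z0 t ζ₁ - z0 t ζ₂ = 2 * t * (Real.log ‖ζ₁ + 1‖ - Real.log ‖ζ₂ + 1‖) +
        2 * t * (Real.log ‖ζ₁ - 1‖ - Real.log ‖ζ₂ - 1‖) := by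
      unfold z0; ring
    rw [h5, h6]
    exact h3
  push Not at hA1 hA2
  have n1 : ζ₁ - 1 ≠ 0 := norm_pos_iff.1 (by linarith)
  have n2 : ζ₂ - 1 ≠ 0 := norm_pos_iff.1 (by linarith)
  have n3 : ζ₁ + 1 ≠ 0 := norm_pos_iff.1 (by linarith)
  have n4 : ζ₂ + 1 ≠ 0 := norm_pos_iff.1 (by linarith)
  have f1 : ‖(t : ℂ) ^ 2 / cj (ζ₁ - 1) - (t : ℂ) ^ 2 / cj (ζ₂ - 1)‖ ≤ 1 / 4 * ‖ζ₁ - ζ₂‖ := by
    rw [lbm_frac t _ _ n1 n2]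
    have h4 : (ζ₁ - 1) - (ζ₂ - 1) = ζ₁ - ζ₂ := by ring
    rw [h4, div_le_iff₀ (mul_pos (norm_pos_iff.2 n1) (norm_pos_iff.2 n2))]
    nlinarith [norm_nonneg (ζ₁ - ζ₂)]
  have f2 : ‖(t : ℂ) ^ 2 / cj (ζ₁ + 1) - (t : ℂ) ^ 2 / cj (ζ₂ + 1)‖ ≤ 1 / 4 * ‖ζ₁ - ζ₂‖ := by
    rw [lbm_frac t _ _ n3 n4]
    have h4 : (ζ₁ + 1) - (ζ₂ + 1) = ζ₁ - ζ₂ := by ring
    rw [h4, div_le_iff₀ (mul_pos (norm_pos_iff.2 n3) (norm_pos_iff.2 n4))]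
    nlinarith [norm_nonneg (ζ₁ - ζ₂)]
  have h5 : ζ₁ - ζ₂ = (f0 t ζ₁ - f0 t ζ₂) -
      ((t : ℂ) ^ 2 / cj (ζ₁ - 1) - (t : ℂ) ^ 2 / cj (ζ₂ - 1)) -
      ((t : ℂ) ^ 2 / cj (ζ₁ + 1) - (t : ℂ) ^ 2 / cj (ζ₂ + 1)) := by
    unfold f0; ring
  have h6 : ‖ζ₁ - ζ₂‖ ≤ ‖f0 t ζ₁ - f0 t ζ₂‖ +
      ‖(t : ℂ) ^ 2 / cj (ζ₁ - 1) - (t : ℂ) ^ 2 / cj (ζ₂ - 1)‖ +
      ‖(t : ℂ) ^ 2 / cj (ζ₁ + 1) - (t : ℂ) ^ 2 / cj (ζ₂ + 1)‖ := by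
    calc ‖ζ₁ - ζ₂‖ = ‖(f0 t ζ₁ - f0 t ζ₂) -
      ((t : ℂ) ^ 2 / cj (ζ₁ - 1) - (t : ℂ) ^ 2 / cj (ζ₂ - 1)) -
      ((t : ℂ) ^ 2 / cj (ζ₁ + 1) - (t : ℂ) ^ 2 / cj (ζ₂ + 1))‖ := by rw [← h5]
      _ ≤ ‖(f0 t ζ₁ - f0 t ζ₂) -
      ((t : ℂ) ^ 2 / cj (ζ₁ - 1) - (t : ℂ) ^ 2 / cj (ζ₂ - 1))‖ +
      ‖(t : ℂ) ^ 2 / cj (ζ₁ + 1) - (t : ℂ) ^ 2 / cj (ζ₂ + 1)‖ := norm_sub_le _ _
      _ ≤ _ := by
        have := norm_sub_le (f0 t ζ₁ - f0 t ζ₂)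
          ((t : ℂ) ^ 2 / cj (ζ₁ - 1) - (t : ℂ) ^ 2 / cj (ζ₂ - 1))
        linarith
  have h7 := abs_nonneg (z0 t ζ₁ - z0 t ζ₂)
  have h8 := norm_nonneg (ζ₁ - ζ₂)
  linarith

end J_lb_model
export J_lb_model (lb_model)
end Pool.Agent.Helper785.TL
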