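import Pool.Agent.Helper785.TL.Defs

set_option autoImplicit false
open Set Metric Pool.Agent.Helper676.TL
open scoped ContDiff

namespace Pool.Agent.Helper785.TL
namespace J_arc_bound




theorem arc_bound {E : Type*} [NormedAddCommGroup E] [NormedSpace ℝ E] (t M : ℝ) (c : ℂ)
    (g : ℂ → E) (ht : 0 < t)
    (hd : ∀ ζ, ‖ζ - c‖ = t → DifferentiableAt ℝ g ζ)
    (hM : ∀ ζ, ‖ζ - c‖ = t → ‖fderiv ℝ g ζ‖ ≤ M) (p q : ℂ) (hp : ‖p - c‖ = t) (hq : ‖q - c‖ = t) :
    ‖g p - g q‖ ≤ (Real.pi / 2) * M * ‖p - q‖ := by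
  have hpc : p - c ≠ 0 := by
    rw [← norm_pos_iff, hp]
    exact ht
  have hM0 : 0 ≤ M := (norm_nonneg _).trans (hM p hp)
  set θ : ℝ := Complex.arg ((q - c) / (p - c)) with hθ
  have h1 : ‖(q - c) / (p - c)‖ = 1 := by
    rw [norm_div, hp, hq, div_self ht.ne']
  have h2 : (q - c) / (p - c) = Complex.exp (θ * Complex.I) := by
    have h3 := Complex.norm_mul_exp_arg_mul_I ((q - c) / (p - c))
    rw [h1, Complex.ofReal_one, one_mul] at h3
    exact h3.symm
  have hqe : q = c + (p - c) * Complex.exp (θ * Complex.I) := by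
    rw [← h2]
    field_simp
    ring
  let φ : ℝ → ℂ := fun s => c + (p - c) * Complex.exp (s * Complex.I)
  have hφn : ∀ s, ‖φ s - c‖ = t := by
    intro s
    show ‖c + (p - c) * Complex.exp (s * Complex.I) - c‖ = t
    rw [add_sub_cancel_left, norm_mul, Complex.norm_exp_ofReal_mul_I, mul_one, hp]
  have hφd : ∀ s : ℝ, HasDerivAt φ ((p - c) * (Complex.exp (s * Complex.I) * Complex.I)) s := by
    intro s
    have h4 : HasDerivAt (fun s : ℝ => (s : ℂ) * Complex.I) Complex.I s := by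
      have h5 := (Complex.ofRealCLM.hasDerivAt (x := s)).mul_const Complex.I
      simpa using h5
    exact (h4.cexp.const_mul (p - c)).const_add c
  have hgd : ∀ s : ℝ, HasDerivAt (fun s => g (φ s))
      (fderiv ℝ g (φ s) ((p - c) * (Complex.exp (s * Complex.I) * Complex.I))) s := by
    intro s
    exact (hd (φ s) (hφn s)).hasFDerivAt.comp_hasDerivAt s (hφd s)
  have hbd : ∀ s : ℝ, ‖fderiv ℝ g (φ s) ((p - c) * (Complex.exp (s * Complex.I) * Complex.I))‖ ≤
      M * t := by
    intro s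
    refine (ContinuousLinearMap.le_opNorm _ _).trans ?_
    have h6 : ‖(p - c) * (Complex.exp (s * Complex.I) * Complex.I)‖ = t := by
      rw [norm_mul, norm_mul, Complex.norm_exp_ofReal_mul_I, Complex.norm_I, hp]
      ring
    rw [h6]
    exact mul_le_mul_of_nonneg_right (hM _ (hφn s)) ht.le
  have h7 := Convex.norm_image_sub_le_of_norm_hasDerivWithin_le (f := fun s => g (φ s))
    (fun s _ => (hgd s).hasDerivWithinAt) (fun s _ => hbd s) (convex_univ (𝕜 := ℝ) (E := ℝ))
    (Set.mem_univ θ) (Set.mem_univ 0)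
  have h8 : φ 0 = p := by
    show c + (p - c) * Complex.exp ((0 : ℝ) * Complex.I) = p
    simp
  have h9 : φ θ = q := hqe.symm
  simp only [h8, h9] at h7
  have h10 : ‖p - q‖ = t * (2 * |Real.sin (θ / 2)|) := by
    have h11 : p - q = - ((p - c) * (Complex.exp (Complex.I * θ) - 1)) := by
      rw [mul_comm Complex.I, ← h2]
      field_simp
      ring
    rw [h11, norm_neg, norm_mul, hp, Complex.norm_exp_I_mul_ofReal_sub_one, norm_mul,
      Real.norm_eq_abs, Real.norm_eq_abs, abs_two]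
  have h12 : |θ / 2| ≤ Real.pi / 2 := by
    rw [abs_div, abs_two]
    have := Complex.abs_arg_le_pi ((q - c) / (p - c))
    rw [← hθ] at this
    linarith
  have h13 := Real.mul_abs_le_abs_sin h12
  have h14 : |θ| ≤ (Real.pi / 2) * (2 * |Real.sin (θ / 2)|) := by
    rw [abs_div, abs_two] at h13
    have hpi := Real.pi_pos
    have h15 : 2 / Real.pi * (|θ| / 2) = |θ| / Real.pi := by
      field_simp
    rw [h15, div_le_iff₀ hpi] at h13
    linarith
  rw [h10]
  calc ‖g p - g q‖ ≤ M * t * ‖(0 : ℝ) - θ‖ := h7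
    _ = M * t * |θ| := by rw [zero_sub, norm_neg, Real.norm_eq_abs]
    _ ≤ M * t * ((Real.pi / 2) * (2 * |Real.sin (θ / 2)|)) :=
        mul_le_mul_of_nonneg_left h14 (mul_nonneg hM0 ht.le)
    _ = Real.pi / 2 * M * (t * (2 * |Real.sin (θ / 2)|)) := by ring

end J_arc_bound
export J_arc_bound (arc_bound)
end Pool.Agent.Helper785.TL
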