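import Pool.Agent.Helper785.TL.Defs
import Pool.Agent.Helper785.TL.P_arc_bound

set_option autoImplicit false
open Set Metric Pool.Agent.Helper676.TL
open scoped ContDiff

namespace Pool.Agent.Helper785.TL
namespace J_qc_half







open scoped RealInnerProductSpace in
theorem qh_proj (t : ℝ) (ht : 0 < t) (w1 w2 : ℂ) (h1 : t ≤ ‖w1‖) (h2 : t ≤ ‖w2‖) :
    ‖(t / ‖w1‖) • w1 - (t / ‖w2‖) • w2‖ ≤ ‖w1 - w2‖ := by
  have ha : 0 < ‖w1‖ := by linarith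
  have hb : 0 < ‖w2‖ := by linarith
  set a := ‖w1‖ with hadef
  set b := ‖w2‖ with hbdef
  have hI : ⟪w1, w2⟫ ≤ a * b := real_inner_le_norm w1 w2
  have e1 : ‖(t / a) • w1 - (t / b) • w2‖ ^ 2 = 2 * t ^ 2 - 2 * (t ^ 2 / (a * b)) * ⟪w1, w2⟫ := by
    rw [norm_sub_sq_real, norm_smul, norm_smul, real_inner_smul_left, real_inner_smul_right,
      Real.norm_of_nonneg (by positivity), Real.norm_of_nonneg (by positivity), ← hadef, ← hbdef]
    field_simp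
    ring
  have e2 : ‖w1 - w2‖ ^ 2 = a ^ 2 - 2 * ⟪w1, w2⟫ + b ^ 2 := norm_sub_sq_real w1 w2
  have e3 : ‖(t / a) • w1 - (t / b) • w2‖ ^ 2 ≤ ‖w1 - w2‖ ^ 2 := by
    rw [e1, e2]
    have hab : 0 < a * b := by positivity
    have h3 : t ^ 2 ≤ a * b := by nlinarith
    have h4 : t ^ 2 / (a * b) ≤ 1 := by rw [div_le_one hab]; exact h3
    have h5 : 2 * t ^ 2 - 2 * (t ^ 2 / (a * b)) * ⟪w1, w2⟫ =
        2 * (t ^ 2 / (a * b)) * (a * b - ⟪w1, w2⟫) := by field_simp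
    rw [h5]
    have h6 : 2 * (t ^ 2 / (a * b)) * (a * b - ⟪w1, w2⟫) ≤ 2 * 1 * (a * b - ⟪w1, w2⟫) := by
      apply mul_le_mul_of_nonneg_right _ (by linarith)
      linarith
    nlinarith [sq_nonneg (a - b)]
  exact (pow_le_pow_iff_left₀ (norm_nonneg _) (norm_nonneg _) two_ne_zero).1 e3



theorem qc_half {E : Type*} [NormedAddCommGroup E] [NormedSpace ℝ E] (t M : ℝ) (s : ℝ)
    (hs : s = 1 ∨ s = -1) (g : ℂ → E) (ht : 0 < t) (ht1 : t < 1 / 4)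
    (hd : ∀ ζ ∈ Gc t, DifferentiableAt ℝ g ζ) (hM : ∀ ζ ∈ Gc t, ‖fderiv ℝ g ζ‖ ≤ M)
    (ζ₁ ζ₂ : ℂ) (h1 : ζ₁ ∈ Gc t) (h2 : ζ₂ ∈ Gc t) (n1 : ‖ζ₁‖ ≤ 11) (n2 : ‖ζ₂‖ ≤ 11)
    (r1 : 0 ≤ s * ζ₁.re) (r2 : 0 ≤ s * ζ₂.re) :
    ‖g ζ₁ - g ζ₂‖ ≤ 4 * M * ‖ζ₁ - ζ₂‖ := by
  have hM0 : 0 ≤ M := (norm_nonneg _).trans (hM ζ₁ h1)
  have hss : s * s = 1 := by rcases hs with h | h <;> rw [h] <;> norm_num
  have hcn : ‖(s : ℂ)‖ = 1 := by
    rw [Complex.norm_real, Real.norm_eq_abs]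
    rcases hs with h | h <;> rw [h] <;> norm_num
  -- membership
  have hmem : ∀ ζ : ℂ, ‖ζ‖ ≤ 11 → 0 ≤ s * ζ.re → t ≤ ‖ζ - s‖ → ζ ∈ Gc t := by
    intro ζ a1 a2 a3
    have a4 : t ≤ ‖ζ + s‖ := by
      have b1 : 1 ≤ s * (ζ + s).re := by
        rw [Complex.add_re, Complex.ofReal_re, mul_add, hss]
        linarith
      have b2 : s * (ζ + s).re ≤ |s * (ζ + s).re| := le_abs_self _
      have b3 : |s * (ζ + s).re| = |(ζ + s).re| := by
        rw [abs_mul]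
        rcases hs with h | h <;> rw [h] <;> norm_num
      have b4 := Complex.abs_re_le_norm (ζ + s)
      linarith
    refine ⟨by linarith, ?_, ?_⟩
    · rcases hs with h | h
      · rw [h] at a3; simpa using a3
      · rw [h] at a4; simpa [sub_eq_add_neg] using a4
    · rcases hs with h | h
      · rw [h] at a4; simpa using a4
      · rw [h] at a3; simpa using a3
  have hdist : ∀ ζ : ℂ, ζ ∈ Gc t → t ≤ ‖ζ - s‖ := by
    intro ζ hζ
    rcases hs with h | h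
    · rw [h]; simpa using hζ.2.1
    · rw [h]; simpa using hζ.2.2
  have hw1 := hdist ζ₁ h1
  have hw2 := hdist ζ₂ h2
  -- the half ball
  have hseg : ∀ x y : ℂ, ‖x‖ ≤ 11 → ‖y‖ ≤ 11 → 0 ≤ s * x.re → 0 ≤ s * y.re →
      (∀ z ∈ segment ℝ x y, t ≤ ‖z - s‖) → ‖g x - g y‖ ≤ M * ‖x - y‖ := by
    intro x y a1 a2 a3 a4 a5
    have hsub : ∀ z ∈ segment ℝ x y, z ∈ Gc t := by
      intro z hz
      apply hmem z _ _ (a5 z hz)
      · have b1 : segment ℝ x y ⊆ closedBall (0 : ℂ) 11 :=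
          (convex_closedBall (0 : ℂ) 11).segment_subset (by simpa using a1) (by simpa using a2)
        simpa using b1 hz
      · obtain ⟨p, q, hp, hq, hpq, rfl⟩ := hz
        rw [Complex.add_re, Complex.real_smul, Complex.real_smul, Complex.re_ofReal_mul,
          Complex.re_ofReal_mul]
        nlinarith [mul_nonneg hp a3, mul_nonneg hq a4]
    have b := Convex.norm_image_sub_le_of_norm_fderiv_le (𝕜 := ℝ) (s := segment ℝ x y)
      (fun z hz => hd z (hsub z hz)) (fun z hz => hM z (hsub z hz)) (convex_segment x y)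
      (right_mem_segment ℝ x y) (left_mem_segment ℝ x y)
    exact b
  by_cases hcase : ∀ z ∈ segment ℝ ζ₁ ζ₂, t ≤ ‖z - s‖
  · have b := hseg ζ₁ ζ₂ n1 n2 r1 r2 hcase
    have b2 : 0 ≤ M * ‖ζ₁ - ζ₂‖ := by positivity
    linarith
  push Not at hcase
  obtain ⟨m, hm, hmt⟩ := hcase
  have hsum : (‖ζ₁ - s‖ - t) + (‖ζ₂ - s‖ - t) ≤ ‖ζ₁ - ζ₂‖ := by
    have b1 := dist_add_dist_of_mem_segment hm
    rw [dist_eq_norm, dist_eq_norm, dist_eq_norm] at b1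
    have b2 : ‖ζ₁ - s‖ ≤ ‖ζ₁ - m‖ + ‖m - s‖ := by
      have : ζ₁ - s = (ζ₁ - m) + (m - s) := by ring
      rw [this]; exact norm_add_le _ _
    have b3 : ‖ζ₂ - s‖ ≤ ‖m - ζ₂‖ + ‖m - s‖ := by
      have : ζ₂ - s = -(m - ζ₂) + (m - s) := by ring
      rw [this]
      refine (norm_add_le _ _).trans ?_
      rw [norm_neg]
    linarith
  -- radial projections
  have hrad : ∀ ζ : ℂ, t ≤ ‖ζ - s‖ → ‖ζ‖ ≤ 11 → 0 ≤ s * ζ.re →
      ‖((s : ℂ) + (t / ‖ζ - s‖) • (ζ - s)) - s‖ = t ∧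
      ‖g ζ - g ((s : ℂ) + (t / ‖ζ - s‖) • (ζ - s))‖ ≤ M * (‖ζ - s‖ - t) := by
    intro ζ a1 a2 a3
    have hpos : 0 < ‖ζ - s‖ := by linarith
    have e1 : ‖((s : ℂ) + (t / ‖ζ - s‖) • (ζ - s)) - s‖ = t := by
      rw [add_sub_cancel_left, norm_smul, Real.norm_of_nonneg (by positivity)]
      field_simp
    refine ⟨e1, ?_⟩
    set p : ℂ := (s : ℂ) + (t / ‖ζ - s‖) • (ζ - s) with hp
    have hpn : ‖p‖ ≤ 11 := by
      have : p = (p - s) + s := by ring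
      rw [this]
      refine (norm_add_le _ _).trans ?_
      rw [e1, hcn]
      linarith
    have hpr : 0 ≤ s * p.re := by
      have b1 : |(p - s).re| ≤ t := by rw [← e1]; exact Complex.abs_re_le_norm _
      rw [Complex.sub_re, Complex.ofReal_re] at b1
      have b2 := abs_le.1 b1
      rcases hs with h | h
      · rw [h] at b2 ⊢; linarith [b2.1]
      · rw [h] at b2 ⊢; linarith [b2.2]
    have b := hseg ζ p a2 hpn a3 hpr (by
      rintro z ⟨α, β, hα, hβ, hαβ, rfl⟩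
      have b1 : α • ζ + β • p - s = (α + β * (t / ‖ζ - s‖)) • (ζ - s) := by
        rw [hp]
        simp only [Complex.real_smul]
        push_cast
        have h3 : (α : ℂ) + β = 1 := by exact_mod_cast hαβ
        linear_combination (s : ℂ) * h3
      rw [b1, norm_smul, Real.norm_of_nonneg (by positivity), add_mul, mul_assoc]
      have b2 : t / ‖ζ - s‖ * ‖ζ - s‖ = t := by field_simp
      rw [b2]
      nlinarith)
    have e2 : ‖ζ - p‖ = ‖ζ - s‖ - t := by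
      have b1 : ζ - p = (1 - t / ‖ζ - s‖) • (ζ - s) := by
        rw [hp, sub_smul, one_smul]; ring
      rw [b1, norm_smul, Real.norm_of_nonneg (by
        rw [sub_nonneg, div_le_one hpos]; exact a1), sub_mul, one_mul]
      have b2 : t / ‖ζ - s‖ * ‖ζ - s‖ = t := by field_simp
      rw [b2]
    rw [e2] at b
    exact b
  obtain ⟨p1e, p1b⟩ := hrad ζ₁ hw1 n1 r1
  obtain ⟨p2e, p2b⟩ := hrad ζ₂ hw2 n2 r2
  set p1 : ℂ := (s : ℂ) + (t / ‖ζ₁ - s‖) • (ζ₁ - s) with hp1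
  set p2 : ℂ := (s : ℂ) + (t / ‖ζ₂ - s‖) • (ζ₂ - s) with hp2
  have hcirc : ∀ ζ : ℂ, ‖ζ - s‖ = t → ζ ∈ Gc t := by
    intro ζ hζ
    apply hmem ζ _ _ hζ.ge
    · have : ζ = (ζ - s) + s := by ring
      rw [this]
      refine (norm_add_le _ _).trans ?_
      rw [hζ, hcn]
      linarith
    · have b1 : |(ζ - s).re| ≤ t := by rw [← hζ]; exact Complex.abs_re_le_norm _
      rw [Complex.sub_re, Complex.ofReal_re] at b1
      have b2 := abs_le.1 b1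
      rcases hs with h | h
      · rw [h] at b2 ⊢; linarith [b2.1]
      · rw [h] at b2 ⊢; linarith [b2.2]
  have harc := arc_bound t M (s : ℂ) g ht (fun ζ hζ => hd ζ (hcirc ζ hζ))
    (fun ζ hζ => hM ζ (hcirc ζ hζ)) p1 p2 p1e p2e
  have hproj : ‖p1 - p2‖ ≤ ‖ζ₁ - ζ₂‖ := by
    have b := qh_proj t ht (ζ₁ - s) (ζ₂ - s) hw1 hw2
    have e1 : p1 - p2 = (t / ‖ζ₁ - s‖) • (ζ₁ - s) - (t / ‖ζ₂ - s‖) • (ζ₂ - s) := by
      rw [hp1, hp2]; ring
    have e2 : (ζ₁ - s) - (ζ₂ - s) = ζ₁ - ζ₂ := by ring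
    rw [e1]
    rw [e2] at b
    exact b
  have htri : ‖g ζ₁ - g ζ₂‖ ≤ ‖g ζ₁ - g p1‖ + ‖g p1 - g p2‖ + ‖g ζ₂ - g p2‖ := by
    have : g ζ₁ - g ζ₂ = (g ζ₁ - g p1) + (g p1 - g p2) + -(g ζ₂ - g p2) := by abel
    rw [this]
    refine (norm_add_le _ _).trans ?_
    rw [norm_neg]
    linarith [norm_add_le (g ζ₁ - g p1) (g p1 - g p2)]
  have hpi := Real.pi_le_four
  have hN := norm_nonneg (ζ₁ - ζ₂)
  have c1 : (Real.pi / 2) * M * ‖p1 - p2‖ ≤ 2 * M * ‖ζ₁ - ζ₂‖ := by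
    have d1 : (Real.pi / 2) * M ≤ 2 * M := mul_le_mul_of_nonneg_right (by linarith) hM0
    exact mul_le_mul d1 hproj (norm_nonneg _) (by positivity)
  have c2 : M * (‖ζ₁ - s‖ - t) + M * (‖ζ₂ - s‖ - t) ≤ M * ‖ζ₁ - ζ₂‖ := by
    rw [← mul_add]
    exact mul_le_mul_of_nonneg_left hsum hM0
  have c3 : 0 ≤ M * ‖ζ₁ - ζ₂‖ := by positivity
  linarith

end J_qc_half
export J_qc_half (qc_half)
end Pool.Agent.Helper785.TL
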