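import Pool.Agent.Helper785.TL.Defs
import Pool.Agent.Helper785.TL.P_qc_half

set_option autoImplicit false
open Set Metric Pool.Agent.Helper676.TL
open scoped ContDiff

namespace Pool.Agent.Helper785.TL
namespace J_qc








theorem qc {E : Type*} [NormedAddCommGroup E] [NormedSpace ℝ E] (t M : ℝ)
    (g : ℂ → E) (ht : 0 < t) (ht1 : t < 1 / 4)
    (hd : ∀ ζ ∈ Gc t, DifferentiableAt ℝ g ζ) (hM : ∀ ζ ∈ Gc t, ‖fderiv ℝ g ζ‖ ≤ M)
    (ζ₁ ζ₂ : ℂ) (h1 : ζ₁ ∈ Gc t) (h2 : ζ₂ ∈ Gc t) (n1 : ‖ζ₁‖ ≤ 11) (n2 : ‖ζ₂‖ ≤ 11) :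
    ‖g ζ₁ - g ζ₂‖ ≤ 4 * M * ‖ζ₁ - ζ₂‖ := by
  -- the case of opposite signs
  have key : ∀ s : ℝ, (s = 1 ∨ s = -1) → 0 < s * ζ₁.re → 0 < -s * ζ₂.re →
      ‖g ζ₁ - g ζ₂‖ ≤ 4 * M * ‖ζ₁ - ζ₂‖ := by
    intro s hs p1 p2
    have hs2 : s * s = 1 := by rcases hs with rfl | rfl <;> norm_num
    have hden : 0 < s * (ζ₁.re - ζ₂.re) := by nlinarith
    have hden0 : ζ₁.re - ζ₂.re ≠ 0 := by
      intro h0; rw [h0, mul_zero] at hden; exact lt_irrefl _ hden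
    obtain ⟨u, hu⟩ : ∃ u : ℝ, u = ζ₁.re / (ζ₁.re - ζ₂.re) := ⟨_, rfl⟩
    have hu' : u * (ζ₁.re - ζ₂.re) = ζ₁.re := by rw [hu]; exact div_mul_cancel₀ _ hden0
    have hu'' : u = (s * ζ₁.re) / (s * (ζ₁.re - ζ₂.re)) := by
      rw [eq_div_iff hden.ne']
      calc u * (s * (ζ₁.re - ζ₂.re)) = s * (u * (ζ₁.re - ζ₂.re)) := by ring
        _ = _ := by rw [hu']
    have hu0 : 0 ≤ u := by rw [hu'']; positivity
    have hu1 : u ≤ 1 := by
      rw [hu'', div_le_one hden]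
      nlinarith
    set m : ℂ := ζ₁ + (u : ℂ) * (ζ₂ - ζ₁) with hm
    have hmre : m.re = 0 := by
      rw [hm]
      simp only [Complex.add_re, Complex.re_ofReal_mul, Complex.sub_re]
      linarith
    have hmn : ‖m‖ ≤ 11 := by
      have e : m = ((1 - u : ℝ) : ℂ) * ζ₁ + (u : ℂ) * ζ₂ := by
        rw [hm]; push_cast; ring
      rw [e]
      refine (norm_add_le _ _).trans ?_
      rw [norm_mul, norm_mul, Complex.norm_real, Complex.norm_real,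
        Real.norm_of_nonneg (by linarith : (0:ℝ) ≤ 1 - u), Real.norm_of_nonneg hu0]
      nlinarith
    have hm1 : t ≤ ‖m - 1‖ := by
      have h := Complex.abs_re_le_norm (m - 1)
      rw [Complex.sub_re, hmre, Complex.one_re] at h
      norm_num at h
      linarith
    have hm2 : t ≤ ‖m + 1‖ := by
      have h := Complex.abs_re_le_norm (m + 1)
      rw [Complex.add_re, hmre, Complex.one_re] at h
      norm_num at h
      linarith
    have hmG : m ∈ Gc t := ⟨by linarith, hm1, hm2⟩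
    have q1 := qc_half t M s hs g ht ht1 hd hM ζ₁ m h1 hmG n1 hmn p1.le (by rw [hmre, mul_zero])
    have hs' : -s = 1 ∨ -s = -1 := by rcases hs with rfl | rfl <;> norm_num
    have q2 := qc_half t M (-s) hs' g ht ht1 hd hM m ζ₂ hmG h2 hmn n2 (by rw [hmre, mul_zero]) p2.le
    have d1 : ‖ζ₁ - m‖ = u * ‖ζ₁ - ζ₂‖ := by
      have e : ζ₁ - m = (u : ℂ) * (ζ₁ - ζ₂) := by rw [hm]; ring
      rw [e, norm_mul, Complex.norm_real, Real.norm_of_nonneg hu0]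
    have d2 : ‖m - ζ₂‖ = (1 - u) * ‖ζ₁ - ζ₂‖ := by
      have e : m - ζ₂ = ((1 - u : ℝ) : ℂ) * (ζ₁ - ζ₂) := by rw [hm]; push_cast; ring
      rw [e, norm_mul, Complex.norm_real, Real.norm_of_nonneg (by linarith)]
    rw [d1] at q1
    rw [d2] at q2
    calc ‖g ζ₁ - g ζ₂‖ ≤ ‖g ζ₁ - g m‖ + ‖g m - g ζ₂‖ := by
          have := norm_add_le (g ζ₁ - g m) (g m - g ζ₂)
          rwa [sub_add_sub_cancel] at this
      _ ≤ 4 * M * (u * ‖ζ₁ - ζ₂‖) + 4 * M * ((1 - u) * ‖ζ₁ - ζ₂‖) := add_le_add q1 q2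
      _ = _ := by ring
  rcases le_total 0 ζ₁.re with a1 | a1 <;> rcases le_total 0 ζ₂.re with a2 | a2
  · exact qc_half t M 1 (Or.inl rfl) g ht ht1 hd hM ζ₁ ζ₂ h1 h2 n1 n2 (by linarith) (by linarith)
  · rcases a1.eq_or_lt with b1 | b1
    · exact qc_half t M (-1) (Or.inr rfl) g ht ht1 hd hM ζ₁ ζ₂ h1 h2 n1 n2 (by linarith) (by linarith)
    · rcases a2.eq_or_lt with b2 | b2
      · exact qc_half t M 1 (Or.inl rfl) g ht ht1 hd hM ζ₁ ζ₂ h1 h2 n1 n2 (by linarith) (by linarith)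
      · exact key 1 (Or.inl rfl) (by linarith) (by linarith)
  · rcases a1.eq_or_lt with b1 | b1
    · exact qc_half t M 1 (Or.inl rfl) g ht ht1 hd hM ζ₁ ζ₂ h1 h2 n1 n2 (by linarith) (by linarith)
    · rcases a2.eq_or_lt with b2 | b2
      · exact qc_half t M (-1) (Or.inr rfl) g ht ht1 hd hM ζ₁ ζ₂ h1 h2 n1 n2 (by linarith)
          (by linarith)
      · exact key (-1) (Or.inr rfl) (by linarith) (by linarith)
  · exact qc_half t M (-1) (Or.inr rfl) g ht ht1 hd hM ζ₁ ζ₂ h1 h2 n1 n2 (by linarith) (by linarith)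

end J_qc
export J_qc (qc)
end Pool.Agent.Helper785.TL
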