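import Pool.Agent.Helper785.TL.Defs
import Pool.Agent.Helper785.TL.P_qc
import Pool.Agent.Helper785.TL.P_lb_model

set_option autoImplicit false
open Set Metric Pool.Agent.Helper676.TL
open scoped ContDiff

namespace Pool.Agent.Helper785.TL
namespace J_inj_of
theorem inj_of (K t : ℝ) (f : ℂ → ℂ) (z : ℂ → ℝ) (ht : 0 < t) (ht1 : t < 1 / 100)
    (hK : 0 ≤ K) (hKt : 100 * K * t < 1) (hc : Close K t f z) (ζ₁ ζ₂ : ℂ) (h1 : ζ₁ ∈ Gc t)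
    (h2 : ζ₂ ∈ Gc t) (n1 : ‖ζ₁‖ ≤ 11) (n2 : ‖ζ₂‖ ≤ 11) (hf : f ζ₁ = f ζ₂) (hz : z ζ₁ = z ζ₂) :
    ζ₁ = ζ₂ := by
  have q1 := qc t (K * t) (fun w => f w - f0 t w) ht (by linarith) hc.df hc.bf ζ₁ ζ₂ h1 h2 n1 n2
  have q2 := qc t (K * t) (fun w => z w - z0 t w) ht (by linarith) hc.dz hc.bz ζ₁ ζ₂ h1 h2 n1 n2
  have q3 := lb_model t ζ₁ ζ₂ ht ht1 h1 h2
  have e1 : ‖(f ζ₁ - f0 t ζ₁) - (f ζ₂ - f0 t ζ₂)‖ = ‖f0 t ζ₁ - f0 t ζ₂‖ := by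
    rw [hf, ← norm_neg]; congr 1; ring
  have e2 : ‖(z ζ₁ - z0 t ζ₁) - (z ζ₂ - z0 t ζ₂)‖ = |z0 t ζ₁ - z0 t ζ₂| := by
    rw [hz, Real.norm_eq_abs, ← abs_neg]; congr 1; ring
  rw [e1] at q1
  rw [e2] at q2
  have h0 : ‖ζ₁ - ζ₂‖ ≤ 0 := by
    have hn := norm_nonneg (ζ₁ - ζ₂)
    by_contra hcon
    push Not at hcon
    nlinarith [mul_nonneg hK ht.le]
  exact sub_eq_zero.mp (norm_le_zero_iff.mp h0)

end J_inj_of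
export J_inj_of (inj_of)
end Pool.Agent.Helper785.TL
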