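import Pool.Agent.Helper785.TL.Defs
import Pool.Agent.Helper785.TL.P_qc

set_option autoImplicit false
open Set Metric Pool.Agent.Helper676.TL
open scoped ContDiff

namespace Pool.Agent.Helper785.TL
namespace J_pos_far








theorem pos_far (K : ℝ) (hK : 0 ≤ K) : ∃ t₁ : ℝ, 0 < t₁ ∧ t₁ < 1 / 100 ∧ ∀ t : ℝ, 0 < t → t < t₁ →
    ∀ z : ℂ → ℝ, (∀ ζ ∈ Gc t, DifferentiableAt ℝ (fun w => z w - z0 t w) ζ) →
    (∀ ζ ∈ Gc t, ‖fderiv ℝ (fun w => z w - z0 t w) ζ‖ ≤ K * t) →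
    (∀ ζ : ℂ, ‖ζ - 1‖ = t → z ζ = 0) → ∀ ζ ∈ Gc t, ‖ζ‖ ≤ 11 →
    2 ≤ (2 + K) * ‖ζ - 1‖ → 2 ≤ (2 + K) * ‖ζ + 1‖ → 0 < z ζ := by
  obtain ⟨L, hL⟩ : ∃ L, L = 2 * Real.log (2 / (2 + K)) - Real.log 3 - 26 * K := ⟨_, rfl⟩
  refine ⟨min (1 / 200) (Real.exp L), lt_min (by norm_num) (Real.exp_pos L),
    lt_of_le_of_lt (min_le_left _ _) (by norm_num), ?_⟩
  intro t ht ht1 z hd hM hz ζ hζ hζ11 h1 h2
  have ht2 : t < 1 / 200 := lt_of_lt_of_le ht1 (min_le_left _ _)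
  have ht3 : Real.log t < L := by
    rw [Real.log_lt_iff_lt_exp ht]
    exact lt_of_lt_of_le ht1 (min_le_right _ _)
  have hp1 : ‖((1 + t : ℝ) : ℂ) - 1‖ = t := by
    have h3 : ((1 + t : ℝ) : ℂ) - 1 = (t : ℂ) := by push_cast; ring
    rw [h3, Complex.norm_real, Real.norm_of_nonneg ht.le]
  have hp2 : ‖((1 + t : ℝ) : ℂ) + 1‖ = 2 + t := by
    have h3 : ((1 + t : ℝ) : ℂ) + 1 = ((2 + t : ℝ) : ℂ) := by push_cast; ring
    rw [h3, Complex.norm_real, Real.norm_of_nonneg (by linarith)]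
  have hp0 : ‖((1 + t : ℝ) : ℂ)‖ = 1 + t := by
    rw [Complex.norm_real, Real.norm_of_nonneg (by linarith)]
  obtain ⟨p, hp⟩ : ∃ p : ℂ, p = ((1 + t : ℝ) : ℂ) := ⟨_, rfl⟩
  rw [← hp] at hp0 hp1 hp2
  have hpG : p ∈ Gc t := ⟨by rw [hp0]; linarith, by rw [hp1], by rw [hp2]; linarith⟩
  have hq := qc t (K * t) (fun w => z w - z0 t w) ht (by linarith) hd hM ζ p hζ hpG hζ11
    (by rw [hp0]; linarith)
  have hdist : ‖ζ - p‖ ≤ 13 := (norm_sub_le _ _).trans (by rw [hp0]; linarith)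
  rw [Real.norm_eq_abs] at hq
  have hq2 := (abs_le.1 hq).1
  rw [hz p hp1] at hq2
  have h0p : z0 t p = 2 * t * Real.log t + 2 * t * Real.log (2 + t) := by
    unfold z0
    rw [hp1, hp2]
  have hlog3 : Real.log (2 + t) ≤ Real.log 3 := Real.log_le_log (by linarith) (by linarith)
  have hK2 : 0 < 2 + K := by linarith
  have hl1 : Real.log (2 / (2 + K)) ≤ Real.log ‖ζ - 1‖ :=
    Real.log_le_log (by positivity) (by rw [div_le_iff₀ hK2]; linarith)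
  have hl2 : Real.log (2 / (2 + K)) ≤ Real.log ‖ζ + 1‖ :=
    Real.log_le_log (by positivity) (by rw [div_le_iff₀ hK2]; linarith)
  have h0z : z0 t ζ = 2 * t * Real.log ‖ζ - 1‖ + 2 * t * Real.log ‖ζ + 1‖ := rfl
  have hKt0 : 0 ≤ K * t := mul_nonneg hK ht.le
  have hKt : 4 * (K * t) * ‖ζ - p‖ ≤ 4 * (K * t) * 13 :=
    mul_le_mul_of_nonneg_left hdist (by linarith)
  have key : 0 < t * (4 * Real.log (2 / (2 + K)) - 2 * Real.log t - 2 * Real.log 3 - 52 * K) :=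
    mul_pos ht (by rw [hL] at ht3; linarith)
  have m1 := mul_le_mul_of_nonneg_left hl1 ht.le
  have m2 := mul_le_mul_of_nonneg_left hl2 ht.le
  have m3 := mul_le_mul_of_nonneg_left hlog3 ht.le
  rw [h0p, h0z] at hq2
  nlinarith [m1, m2, m3, hKt, key, hq2]

end J_pos_far
export J_pos_far (pos_far)
end Pool.Agent.Helper785.TL
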