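import Pool.Agent.Helper785.TL.Defs

set_option autoImplicit false
open Set Metric Pool.Agent.Helper676.TL
open scoped ContDiff

namespace Pool.Agent.Helper785.TL
namespace J_pos_near




theorem pos_near_real (K t ρ A B G Gp Z L1 L2 M1 M2 : ℝ) (ht : 0 < t) (hρ : t < ρ)
    (hKρ : (2 + K) * ρ < 2) (hA : 1 ≤ A) (hAB : B - A ≤ ρ - t)
    (hL1 : L1 - L2 ≥ 1 - t / ρ) (hM : M2 - M1 ≤ B / A - 1)
    (hG : |G - Gp| ≤ K * t * (ρ - t)) (hZ : Z = G + (2 * t * L1 + 2 * t * M1))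
    (hZp : 0 = Gp + (2 * t * L2 + 2 * t * M2)) : 0 < Z := by
  have hρ0 : 0 < ρ := ht.trans hρ
  have hA0 : 0 < A := by linarith
  have h1 : B / A - 1 ≤ ρ - t := by
    have h2 : B / A - 1 = (B - A) / A := by field_simp
    rw [h2, div_le_iff₀ hA0]
    nlinarith
  have h3 : M1 - M2 ≥ -(ρ - t) := by linarith
  have h4 := (abs_le.mp hG).1
  have h5 : Z ≥ 2 * t * (1 - t / ρ) - 2 * t * (ρ - t) - K * t * (ρ - t) := by
    have h6 : 2 * t * (L1 - L2) ≥ 2 * t * (1 - t / ρ) :=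
      mul_le_mul_of_nonneg_left hL1 (by linarith)
    have h7 : 2 * t * (M1 - M2) ≥ 2 * t * (-(ρ - t)) :=
      mul_le_mul_of_nonneg_left h3 (by linarith)
    have h8 : Z = (G - Gp) + 2 * t * (L1 - L2) + 2 * t * (M1 - M2) := by linarith
    linarith
  have h9 : 2 * t * (1 - t / ρ) - 2 * t * (ρ - t) - K * t * (ρ - t) =
      t * (ρ - t) * (2 - (2 + K) * ρ) / ρ := by
    field_simp
    ring
  rw [h9] at h5
  have h10 : 0 < t * (ρ - t) * (2 - (2 + K) * ρ) / ρ := by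
    apply div_pos _ hρ0
    apply mul_pos (mul_pos ht (by linarith)) (by linarith)
  linarith

theorem pos_near (K t : ℝ) (s : ℝ) (hs : s = 1 ∨ s = -1) (z : ℂ → ℝ) (ht : 0 < t)
    (ht1 : t < 1 / 100) (hK : 0 ≤ K)
    (hd : ∀ ζ ∈ Gc t, DifferentiableAt ℝ (fun w => z w - z0 t w) ζ)
    (hb : ∀ ζ ∈ Gc t, ‖fderiv ℝ (fun w => z w - z0 t w) ζ‖ ≤ K * t)
    (h0 : ∀ ζ : ℂ, ‖ζ - s‖ = t → z ζ = 0) (ζ : ℂ) (h1 : t < ‖ζ - s‖)
    (h2 : (2 + K) * ‖ζ - s‖ < 2) : 0 < z ζ := by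
  have hz0 : ∀ w : ℂ, z0 t w = 2 * t * Real.log ‖w - s‖ + 2 * t * Real.log ‖w + s‖ := by
    intro w
    rcases hs with rfl | rfl
    · simp [z0]
    · simp only [z0, Complex.ofReal_neg, Complex.ofReal_one, sub_neg_eq_add]
      rw [← sub_eq_add_neg]
      ring
  have hsn : ‖(s : ℂ)‖ = 1 := by
    rcases hs with rfl | rfl <;> simp
  have hadd : ∀ w : ℂ, 2 - ‖w - s‖ ≤ ‖w + s‖ := by
    intro w
    have h3 : ‖(2 * s : ℂ)‖ ≤ ‖w + s‖ + ‖w - s‖ := by
      have h4 : (2 * s : ℂ) = (w + s) - (w - s) := by ring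
      rw [h4]
      exact norm_sub_le _ _
    have h5 : ‖(2 * s : ℂ)‖ = 2 := by
      rw [norm_mul, hsn]
      simp
    linarith
  have hGc : ∀ w : ℂ, t ≤ ‖w - s‖ → ‖w - s‖ < 1 → w ∈ Gc t := by
    intro w hw1 hw2
    have h3 := hadd w
    have h4 : ‖w‖ < 12 := by
      have h5 : ‖w‖ ≤ ‖w - s‖ + ‖(s : ℂ)‖ := by
        have h6 : w = (w - s) + s := by ring
        calc ‖w‖ = ‖(w - s) + s‖ := by rw [← h6]
          _ ≤ _ := norm_add_le _ _
      rw [hsn] at h5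
      linarith
    rcases hs with rfl | rfl
    · refine ⟨h4, by simpa using hw1, ?_⟩
      have : t ≤ ‖w + ((1 : ℝ) : ℂ)‖ := by linarith
      simpa using this
    · refine ⟨h4, ?_, ?_⟩
      · have : t ≤ ‖w + ((-1 : ℝ) : ℂ)‖ := by linarith
        simpa [sub_eq_add_neg] using this
      · simpa using hw1
  set ρ := ‖ζ - s‖ with hρ
  have hρ0 : 0 < ρ := ht.trans h1
  have hρ1 : ρ < 1 := by nlinarith
  set p : ℂ := s + ((t / ρ : ℝ) : ℂ) * (ζ - s) with hp
  have htρ : 0 < t / ρ := div_pos ht hρ0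
  have htρ1 : t / ρ < 1 := (div_lt_one hρ0).mpr h1
  have hps : ‖p - s‖ = t := by
    have h3 : p - s = ((t / ρ : ℝ) : ℂ) * (ζ - s) := by rw [hp]; ring
    rw [h3, norm_mul, Complex.norm_real, Real.norm_of_nonneg htρ.le, ← hρ]
    field_simp
  have hζp : ‖ζ - p‖ = ρ - t := by
    have h3 : ζ - p = ((1 - t / ρ : ℝ) : ℂ) * (ζ - s) := by
      rw [hp]
      push_cast
      ring
    rw [h3, norm_mul, Complex.norm_real, Real.norm_of_nonneg (by linarith), ← hρ]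
    field_simp
  have hseg : ∀ w ∈ segment ℝ p ζ, w ∈ Gc t := by
    rintro w ⟨a, b, ha, hb', hab, rfl⟩
    have h3 : a • p + b • ζ - s = ((a * (t / ρ) + b : ℝ) : ℂ) * (ζ - s) := by
      have ha' : (a : ℂ) = 1 - b := by
        rw [← Complex.ofReal_one, ← hab]
        push_cast
        ring
      rw [hp, Complex.real_smul, Complex.real_smul]
      push_cast
      rw [ha']
      ring
    have h4 : 0 ≤ a * (t / ρ) + b := by positivity
    have h5 : ‖a • p + b • ζ - s‖ = (a * (t / ρ) + b) * ρ := by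
      rw [h3, norm_mul, Complex.norm_real, Real.norm_of_nonneg h4]
    have h6 : (a * (t / ρ) + b) * ρ = a * t + b * ρ := by
      field_simp
    apply hGc
    · rw [h5, h6]
      have : a = 1 - b := by linarith
      rw [this]
      nlinarith
    · rw [h5, h6]
      have : a = 1 - b := by linarith
      rw [this]
      nlinarith
  have hmv := (convex_segment p ζ).norm_image_sub_le_of_norm_fderiv_le
    (fun w hw => hd w (hseg w hw)) (fun w hw => hb w (hseg w hw))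
    (left_mem_segment ℝ p ζ) (right_mem_segment ℝ p ζ)
  rw [hζp, Real.norm_eq_abs] at hmv
  have hζs : 1 ≤ ‖ζ + s‖ := by
    have := hadd ζ
    rw [← hρ] at this
    linarith
  have hps' : 0 < ‖p + s‖ := by
    have := hadd p
    rw [hps] at this
    linarith
  have hBA : ‖p + s‖ - ‖ζ + s‖ ≤ ρ - t := by
    have h3 : ‖p + s‖ ≤ ‖ζ + s‖ + ‖ζ - p‖ := by
      have h4 : p + s = (ζ + s) - (ζ - p) := by ring
      rw [h4]
      exact norm_sub_le _ _
    rw [hζp] at h3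
    linarith
  refine pos_near_real K t ρ ‖ζ + s‖ ‖p + s‖ (z ζ - z0 t ζ) (z p - z0 t p) (z ζ)
    (Real.log ρ) (Real.log t) (Real.log ‖ζ + s‖) (Real.log ‖p + s‖) ht h1 h2 hζs hBA ?_ ?_ hmv ?_ ?_
  · have h3 := Real.log_le_sub_one_of_pos htρ
    rw [Real.log_div ht.ne' hρ0.ne'] at h3
    linarith
  · have h3 : 0 < ‖p + s‖ / ‖ζ + s‖ := div_pos hps' (by linarith)
    have h4 := Real.log_le_sub_one_of_pos h3
    rw [Real.log_div hps'.ne' (by linarith)] at h4
    exact h4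
  · rw [hz0 ζ]
    ring
  · rw [hz0 p, h0 p hps, hps]
    ring

end J_pos_near
export J_pos_near (pos_near)
end Pool.Agent.Helper785.TL
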