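import Pool.Agent.Helper785.TL.Defs
import Pool.Agent.Helper785.TL.P_close_of
import Pool.Agent.Helper785.TL.P_inj_of
import Pool.Agent.Helper785.TL.P_pos_near
import Pool.Agent.Helper785.TL.P_pos_far

set_option autoImplicit false

namespace Pool.Agent.Helper785.TL

open Set Metric Pool.Agent.Helper676.TL
open scoped ContDiff

/-! Final -/
theorem b34 (C : ℝ) (hC : 0 ≤ C) : ∃ t₁ : ℝ, 0 < t₁ ∧ t₁ < 1 / 100 ∧ ∀ t, 0 < t → t < t₁ →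
    ∀ (h : ℝ) (a b f : ℂ → ℂ) (z : ℂ → ℝ), Fields C t h a b → SheetEq t a b f z →
    (∀ ζ₁ ∈ Gc t, ∀ ζ₂ ∈ Gc t, ‖ζ₁‖ ≤ 11 → ‖ζ₂‖ ≤ 11 → f ζ₁ = f ζ₂ → z ζ₁ = z ζ₂ → ζ₁ = ζ₂) ∧
    (∀ ζ ∈ Gc t, ‖ζ‖ ≤ 11 → ‖ζ - 1‖ ≠ t → ‖ζ + 1‖ ≠ t → 0 < z ζ) := by
  set K : ℝ := 18 * C + 62 with hKdef
  have hK : 0 ≤ K := by positivity
  obtain ⟨t₁, ht₁, ht₁', hfar⟩ := pos_far K hK
  refine ⟨min t₁ (1 / (100 * K + 1)), lt_min ht₁ (by positivity),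
    lt_of_le_of_lt (min_le_left _ _) ht₁', ?_⟩
  intro t ht htt h a b f z hF hS
  have htt1 : t < t₁ := lt_of_lt_of_le htt (min_le_left _ _)
  have htt2 : t < 1 / (100 * K + 1) := lt_of_lt_of_le htt (min_le_right _ _)
  have ht100 : t < 1 / 100 := htt1.trans ht₁'
  have hKt : 100 * K * t < 1 := by
    rw [lt_div_iff₀ (by positivity)] at htt2
    nlinarith
  have hCt : (3 * C + 12) * t ≤ 1 := by
    have : (3 * C + 12) ≤ 100 * K := by rw [hKdef]; linarith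
    nlinarith
  have hc : Close K t f z := close_of C t h a b f z hC ht100 hCt hF hS
  refine ⟨fun ζ₁ h1 ζ₂ h2 n1 n2 hf hz => inj_of K t f z ht ht100 hK hKt hc ζ₁ ζ₂ h1 h2 n1 n2 hf hz,
    ?_⟩
  intro ζ hζ n hne1 hne2
  by_cases c1 : (2 + K) * ‖ζ - 1‖ < 2
  · refine pos_near K t 1 (Or.inl rfl) z ht ht100 hK hc.dz hc.bz ?_ ζ ?_ ?_
    · intro ξ hξ; exact hS.zero_p ξ (by simpa using hξ)
    · have := lt_of_le_of_ne hζ.2.1 (Ne.symm hne1); simpa using this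
    · simpa using c1
  by_cases c2 : (2 + K) * ‖ζ + 1‖ < 2
  · refine pos_near K t (-1) (Or.inr rfl) z ht ht100 hK hc.dz hc.bz ?_ ζ ?_ ?_
    · intro ξ hξ; exact hS.zero_m ξ (by simpa using hξ)
    · have := lt_of_le_of_ne hζ.2.2 (Ne.symm hne2); simpa using this
    · simpa using c2
  · push Not at c1 c2
    exact hfar t ht htt1 z hc.dz hc.bz hS.zero_p ζ hζ n c1 c2

end Pool.Agent.Helper785.TL
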